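import Pool.Agent.Q24.SLN.Amalg

/-!
# Amalgamated products in the genus of a lattice

Let `Γ` be a group such that the abelianizations of all its subgroups of finite index are torsion
groups. If `Γ` is an amalgamated product of subgroups `A` and `B` with amalgamated subgroup
`C = A ⊓ B`, then, after exchanging `A` and `B` if necessary, `B` is dense in the profinite
topology of `Γ`, and `C` is dense in `A`.
-/

namespace Pool.Agent.Results.MP_a2a22c_al.AmalgamDecompositions

open Pool.Agent.Q24.SLN

universe u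

theorem result (Γ : Type u) [Group Γ]
    (hF : ∀ N : Subgroup Γ, N.FiniteIndex → ∀ x : Abelianization N, IsOfFinOrder x)
    (A B : Subgroup Γ) (hAB : IsAmalgam A B) :
    (∀ N : Subgroup Γ, N.Normal → N.FiniteIndex → A ≤ (A ⊓ B) ⊔ N ∧ B ⊔ N = ⊤) ∨
    (∀ N : Subgroup Γ, N.Normal → N.FiniteIndex → B ≤ (A ⊓ B) ⊔ N ∧ A ⊔ N = ⊤) :=
  amalgam_main hF hAB

end Pool.Agent.Results.MP_a2a22c_al.AmalgamDecompositions
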