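import Pool.Agent.Q24.SLN.Mod

/-!
# Groups with the finite quotients of `SL(n, ℤ)` have no small representations

Let `n ≥ 3` and let `Γ` be a finitely generated group all of whose finite quotients are quotients of
`SL(n, ℤ)`. Then every action of `Γ` by linear maps on a module with fewer than `n` generators over
a commutative ring is trivial. In particular all homomorphisms `Γ → GL(m, R)` with `m < n` and `R`
a commutative ring are trivial.
-/

namespace Pool.Agent.Results.MP_a2a22c_al.ModulesWithFewGenerators

open Pool.Agent.Q24.SLN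

universe u v

theorem result (n : ℕ) (hn : 3 ≤ n) (Γ : Type) [Group Γ] (hfg : Group.FG Γ)
    (hΓ : ∀ (Q : Type) [Group Q] [Finite Q], (∃ f : Γ →* Q, Function.Surjective f) →
      ∃ f : Matrix.SpecialLinearGroup (Fin n) ℤ →* Q, Function.Surjective f)
    (R : Type u) [CommRing R] (M : Type v) [AddCommGroup M] [Module R M]
    (m : ℕ) (hm : m < n) (s : Fin m → M) (hs : Submodule.span R (Set.range s) = ⊤)
    (ρ : Γ →* (M ≃ₗ[R] M)) (γ : Γ) (x : M) : ρ γ x = x := by
  let f : Γ →* Module.End R M :=
    { toFun := fun γ => (ρ γ : M →ₗ[R] M)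
      map_one' := by rw [map_one]; rfl
      map_mul' := fun a b => by rw [map_mul]; rfl }
  have h1 := act_ring hn hfg hΓ hm s hs f
  exact LinearMap.congr_fun (DFunLike.congr_fun h1 γ) x

end Pool.Agent.Results.MP_a2a22c_al.ModulesWithFewGenerators
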