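import Pool.Agent.Q24.SLN.Nil

/-!
# Groups with the finite quotients of `SL(n, ℤ)` acting on residually nilpotent groups

Let `n ≥ 3` and let `Γ` be a finitely generated group all of whose finite quotients are quotients of
`SL(n, ℤ)`. If `N` is a residually nilpotent group whose abelianization has fewer than `n`
generators, then every homomorphism `Γ → Aut N` is trivial.
-/

namespace Pool.Agent.Results.MP_a2a22c_al.ResiduallyNilpotentGroups

open Pool.Agent.Q24.SLN

universe u

theorem result (n : ℕ) (hn : 3 ≤ n) (Γ : Type) [Group Γ] (hfg : Group.FG Γ)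
    (hΓ : ∀ (Q : Type) [Group Q] [Finite Q], (∃ f : Γ →* Q, Function.Surjective f) →
      ∃ f : Matrix.SpecialLinearGroup (Fin n) ℤ →* Q, Function.Surjective f)
    (N : Type u) [Group N] (m : ℕ) (hm : m < n) (s : Fin m → N)
    (hs : Subgroup.closure (Set.range s) ⊔ commutator N = ⊤)
    (hN : ∀ x : N, (∀ k, x ∈ (⊤ : Subgroup N).lowerCentralSeries k) → x = 1)
    (ρ : Γ →* MulAut N) (γ : Γ) (x : N) : ρ γ x = x := by
  rw [act_nilp hn hfg hΓ hm s hs hN ρ]
  rfl

end Pool.Agent.Results.MP_a2a22c_al.ResiduallyNilpotentGroups
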