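import Pool.Agent.Q24.SLN.Smooth

/-!
# Smooth actions of groups with the finite quotients of `SL(n, ℤ)`

Let `n ≥ 3` and let `Γ` be a finitely generated group all of whose finite quotients are quotients of
`SL(n, ℤ)`. If `Γ` acts by `C^1` diffeomorphisms on a connected manifold of dimension less than `n`
and has an orbit with at most `n` points, then the action is trivial.
-/

namespace Pool.Agent.Results.MP_a2a22c_al.SmoothActions

open Pool.Agent.Q24.SLN
open scoped Manifold ContDiff

universe u v

theorem result (n : ℕ) (hn : 3 ≤ n) (Γ : Type) [Group Γ] (hfg : Group.FG Γ)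
    (hΓ : ∀ (Q : Type) [Group Q] [Finite Q], (∃ f : Γ →* Q, Function.Surjective f) →
      ∃ f : Matrix.SpecialLinearGroup (Fin n) ℤ →* Q, Function.Surjective f)
    (E : Type u) [NormedAddCommGroup E] [NormedSpace ℝ E] [FiniteDimensional ℝ E]
    (hE : Module.finrank ℝ E < n)
    (M : Type v) [TopologicalSpace M] [T2Space M] [ConnectedSpace M] [ChartedSpace E M]
    [IsManifold 𝓘(ℝ, E) 1 M] [MulAction Γ M]
    (hsm : ∀ g : Γ, ContMDiff 𝓘(ℝ, E) 𝓘(ℝ, E) 1 (fun x : M => g • x))
    (p : M) (hfin : (MulAction.orbit Γ p).Finite) (hp : (MulAction.orbit Γ p).ncard ≤ n)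
    (g : Γ) (x : M) : g • x = x :=
  smooth hn hfg hΓ hE hsm p hfin hp g x

end Pool.Agent.Results.MP_a2a22c_al.SmoothActions
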